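import Pool.Agent.H76.GX.Targets
import Pool.Agent.H77.GX.CSX

/-!
# Board gm3_modules, row EX1: the free extension of a configuration
-/

set_option autoImplicit false
set_option linter.unusedVariables false

namespace Pool.Agent.H86.GX

open Pool.Agent.H68.BP Pool.Agent.H58.SF Pool.Agent.H53.GC Pool.Agent.H53.GR Pool.Agent.H53.GM
open Pool.Agent.H53.GX Pool.Agent.H76.GX
open Pool.Agent.H29.GM (vr_pts)
open Classical

theorem kd_congr {τ : Sig} {N k L : ℕ} {I : Finset (Fin k)} {a₀ : Ty τ N (Fin k)} (r : Fin 3)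
    (lb : Fin k → Rg L) (p p' : Fin 6 → Ty τ N (Fin k)) (e : Finset (Fin k))
    (h : ∀ c, rse (e ∪ I) (p c) = rse (e ∪ I) (p' c)) :
    kd I a₀ r lb p e = kd I a₀ r lb p' e := by
  unfold kd rsG
  rw [vr_pts]
  split_ifs
  · rfl
  · rfl
  · exact Prod.ext rfl (funext fun d => h _)
  · exact Prod.ext (funext fun c => h _) rfl
  · exact Prod.ext (funext fun c => h _) (funext fun d => h _)

theorem pf_EX1 (hFAX : Pool.Agent.H76.GX.T_FAX) : Pool.Agent.H76.GX.T_EX1 := by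
  intro τ N k L F I a₀ J c p hF hk hc hp heq
  have key : ∀ i, Rl F (fa F I c.1 J p (c.2.2.2 i)) ∧
      rse (gs I c.1 J) (fa F I c.1 J p (c.2.2.2 i)) = rse (gs I c.1 J) (c.2.2.2 i) := by
    intro i
    obtain ⟨h1, -, h3, -⟩ := hFAX τ N k F I c.1 J p (c.2.2.2 i) hF hk hc.sub hp (hc.mx i).1
      (heq i).symm
    exact ⟨h1, h3⟩
  have hsub : cst I ⊆ gs I c.1 J := Finset.subset_union_right
  have hJ : J \ (c.1 ∩ J) = J \ c.1 := by
    ext v
    simp only [Finset.mem_sdiff, Finset.mem_inter]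
    tauto
  refine ⟨⟨?_, ?_, ?_, ?_, ?_⟩, ⟨?_, ?_, ?_⟩, ?_⟩
  · exact Finset.inter_subset_left.trans hc.sub
  · intro i
    refine ⟨(key i).1, ?_⟩
    change rse (cst I) (fa F I c.1 J p (c.2.2.2 i)) = a₀
    rw [← rse_rse hsub, (key i).2, rse_rse hsub]
    exact (hc.mx i).2
  · exact hc.reg
  · exact hc.adj
  · rcases hc.bin with h | ⟨P, P', h⟩
    · exact Or.inl h
    · refine Or.inr ⟨fa F I c.1 J p P, fa F I c.1 J p P', ?_⟩
      funext i
      change fa F I c.1 J p (c.2.2.2 i) = _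
      rw [h]
      exact pat_map (fa F I c.1 J p) c.2.1 P P' i
  · intro v hv
    change v ∈ c.1 ∩ J ↔ v ∈ c.1
    rw [Finset.mem_inter]
    exact ⟨fun h => h.1, fun h => ⟨h, hv⟩⟩
  · intro v _ _
    rfl
  · change kdx I a₀ (exR F I J c p) (J \ (c.1 ∩ J)) = kdx I a₀ c (J \ c.1)
    rw [hJ]
    exact kd_congr c.2.1 (lbx c.2.2.1) _ _ _ fun i => (key i).2
  · intro v _
    rfl

end Pool.Agent.H86.GX
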